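import Mathlib
import Pool.Agent.Y643.SL.Label

/-!
# Sum graphs all of whose sum labelings have only large labels

For every `N` there is a finite simple sum graph in all of whose sum labelings every label is
larger than `N`; it has at most `C N ^ 5` vertices.

The graph is the disjoint union of two graphs `GG q`, `GG p` of the family of
`Pool.Agent.H43R3.SumG` and one isolated vertex, `p` about `385 N` and `q = 1 + 3100 p (2 p - 3)
(2 p + 3) (2 p + 5) (14 p - 3)`. The labels of `GG q` are the multiples by some `a` of the elements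
of the standard label set `S q` (the even numbers below `16 q` and four odd numbers), those of
`GG p` the multiples by some `b` of the elements of `S p`, and `16 q a`, `16 p b` are labels. Both
cannot belong to the isolated vertex, as `8 q a` and `8 p b` would be the same label. So, for
instance, `16 q a = b m` for an element `m` of `S p`; if `m` is even, then two labels coincide or
a sum of two labels of the two sides is a label. So `m` is one of the four odd elements, prime to
`16 q`, and divides `a`, and `16 q` divides `b`.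
-/

set_option autoImplicit false

namespace Pool.Agent.Results.MP_520ea7_co.LargeLabels

/-- A sum labeling of a graph: an injective map to the positive integers such that two distinct
vertices are adjacent exactly when the sum of their labels is again a label. -/
def IsSumLabeling {V : Type} (G : SimpleGraph V) (l : V → ℕ) : Prop :=
  Function.Injective l ∧ (∀ v, 0 < l v) ∧
    ∀ u v, u ≠ v → (G.Adj u v ↔ ∃ w, l w = l u + l v)

/-- A sum graph is a graph with at least one sum labeling. -/
def IsSumGraph {V : Type} (G : SimpleGraph V) : Prop := ∃ l, IsSumLabeling G l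

/-- A graph has a minimal sum labeling if some sum labeling uses the label 1. -/
def HasMinimalSumLabeling {V : Type} (G : SimpleGraph V) : Prop :=
  ∃ l, IsSumLabeling G l ∧ ∃ u, l u = 1

theorem isSumLabeling_iff {V W : Type} (G : SimpleGraph V) (H : SimpleGraph W)
    (l : (V ⊕ W) ⊕ Fin 1 → ℕ) :
    IsSumLabeling ((G ⊕g H) ⊕g (⊥ : SimpleGraph (Fin 1))) l ↔ Y643.SL.LabU G H 1 l := by
  have key : ∀ x y : (V ⊕ W) ⊕ Fin 1, ((G ⊕g H) ⊕g (⊥ : SimpleGraph (Fin 1))).Adj x y ↔
      ((∃ u v, x = Sum.inl (Sum.inl u) ∧ y = Sum.inl (Sum.inl v) ∧ G.Adj u v) ∨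
        (∃ u v, x = Sum.inl (Sum.inr u) ∧ y = Sum.inl (Sum.inr v) ∧ H.Adj u v)) := by
    rintro ((u | u) | i) ((v | v) | j) <;> simp
  unfold IsSumLabeling Y643.SL.LabU
  simp only [key, eq_comm]

theorem large (N : ℕ) (hN : 1 ≤ N) : ∃ (V : Type) (_ : Fintype V) (_ : Nonempty V)
    (G : SimpleGraph V), Fintype.card V ≤ (48608033 * 2696 ^ 5) * N ^ 5 ∧ IsSumGraph G ∧
      ∀ l, IsSumLabeling G l → ∀ v, N < l v := by
  classical
  obtain ⟨q, p, hNp, hp, hq, h⟩ := Y643.SL.exists_cop N
  refine ⟨(H43R3.SumG.VV q ⊕ H43R3.SumG.VV p) ⊕ Fin 1, inferInstance, ⟨Sum.inr 0⟩,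
    (H43R3.SumG.GG q ⊕g H43R3.SumG.GG p) ⊕g (⊥ : SimpleGraph (Fin 1)), ?_, ?_, ?_⟩
  · have h1 : Fintype.card (H43R3.SumG.VV q) ≤ 16*q := by
      have := Fintype.card_subtype_le (fun s : Fin (16*q) => H43R3.SumG.inS q s.1)
      rwa [Fintype.card_fin] at this
    have h2 : Fintype.card (H43R3.SumG.VV p) ≤ 16*p := by
      have := Fintype.card_subtype_le (fun s : Fin (16*p) => H43R3.SumG.inS p s.1)
      rwa [Fintype.card_fin] at this
    rw [Fintype.card_sum, Fintype.card_sum, Fintype.card_fin]
    have h3 : p ≤ 2696 * N := by omega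
    have h4 : p ≤ p^5 := Nat.le_self_pow (by norm_num) p
    have h5 : 1 ≤ p^5 := Nat.one_le_pow _ _ (by omega)
    have h6 : p^5 ≤ (2696 * N)^5 := Nat.pow_le_pow_left h3 5
    have h7 : (2696 * N)^5 = 2696^5 * N^5 := Nat.mul_pow _ _ _
    have h8 : (48608033 * 2696 ^ 5) * N ^ 5 = 48608033 * (2696^5 * N^5) := by ring
    rw [h8, ← h7]
    have h9 : 48608033 * p^5 ≤ 48608033 * (2696 * N)^5 := Nat.mul_le_mul_left _ h6
    omega
  · exact ⟨_, (isSumLabeling_iff _ _ _).2 (Y643.SL.labU_exists h)⟩
  · intro l hl v
    exact lt_of_lt_of_le hNp (Y643.SL.labU_large h ((isSumLabeling_iff _ _ _).1 hl) v)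

/-- **There is no bound for the smallest label of a sum graph.** (1) There is a finite nonempty
simple sum graph without a minimal sum labeling. (2) There is a constant `C` such that for every
`N ≥ 1` there is a finite nonempty simple sum graph with at most `C N ^ 5` vertices such that in
every sum labeling of it all labels are larger than `N`. -/
theorem result :
    (¬ ∀ (V : Type) (_ : Fintype V) (_ : Nonempty V) (G : SimpleGraph V),
      IsSumGraph G → HasMinimalSumLabeling G) ∧
    ∃ C : ℕ, ∀ N : ℕ, 1 ≤ N → ∃ (V : Type) (_ : Fintype V) (_ : Nonempty V) (G : SimpleGraph V),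
      Fintype.card V ≤ C * N ^ 5 ∧ IsSumGraph G ∧ ∀ l, IsSumLabeling G l → ∀ v, N < l v := by
  refine ⟨fun hall => ?_, 48608033 * 2696 ^ 5, large⟩
  obtain ⟨V, iV, iN, G, _, h1, h2⟩ := large 1 le_rfl
  obtain ⟨l, hl, u, hu⟩ := hall V iV iN G h1
  have := h2 l hl u
  omega

end Pool.Agent.Results.MP_520ea7_co.LargeLabels
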